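import Pool.Agent.H18.ChromRel

set_option autoImplicit false

namespace Pool.Agent.Results.MP_fbe9f6_co.Bipartite

open Pool.Agent.H18.ChromRel

/-- Every bipartite graph with at least two vertices is chromatically related to `K₂`. -/
theorem result (n : ℕ) (hn : 2 ≤ n) (G : SimpleGraph (Fin n)) (hG : G.Colorable 2)
    (l : ℕ) (hl : 2 ≤ l) :
    ∃ (m : ℕ) (H : SimpleGraph (Fin m)), H.chromaticNumber = l ∧ ChiEq H G l := by
  have key : Related G (⊤ : SimpleGraph (Fin 2)) := by
    by_cases h : G = ⊥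
    · subst h; exact related_bot (by simpa using hn)
    · refine related_of_chi G _ (by simpa using hn) (by simp) le_rfl hG ?_
        (by simpa using (⊤ : SimpleGraph (Fin 2)).colorable_of_fintype) top_two_not_col
      rintro ⟨c⟩
      apply h
      ext a b
      simp only [SimpleGraph.bot_adj, iff_false]
      exact fun hab => c.valid hab (Subsingleton.elim _ _)
  obtain ⟨m, H, h1, h2⟩ := key l (by omega)
  have eqv : ∀ k, FreeCol H (⊤ : SimpleGraph (Fin 2)) k ↔ H.Colorable k := by
    intro k
    constructor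
    · rintro ⟨c, hc⟩
      refine ⟨SimpleGraph.Coloring.mk c ?_⟩
      intro a b hab h
      refine hc ⟨⟨![a, b], ?_⟩, ?_⟩ ⟨c a, ?_⟩
      · intro i j hij
        have := hab.ne
        fin_cases i <;> fin_cases j <;> simp_all [eq_comm]
      · intro i j
        fin_cases i <;> fin_cases j <;> simp [hab, hab.symm]
      · intro v
        fin_cases v
        · rfl
        · exact h.symm
    · rintro ⟨c⟩
      refine ⟨c, fun f ⟨i, hi⟩ => ?_⟩
      exact c.valid (f.map_rel_iff.mpr (show (⊤ : SimpleGraph (Fin 2)).Adj 0 1 by simp))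
        ((hi 0).trans (hi 1).symm)
  refine ⟨m, H, ?_, h1⟩
  obtain ⟨r, rfl⟩ : ∃ r, l = r + 1 := ⟨l - 1, by omega⟩
  rw [Nat.cast_succ, SimpleGraph.chromaticNumber_eq_iff_colorable_not_colorable]
  refine ⟨(eqv _).mp h2.1, fun hc => ?_⟩
  have := h2.2 ((eqv _).mpr hc)
  omega

end Pool.Agent.Results.MP_fbe9f6_co.Bipartite
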